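import Pool.Agent.H32.NY.Y
import Pool.Agent.H4.YB.Def
import Pool.Agent.H24.TK.Frm
import Pool.Agent.H83.TK.GsB
import Pool.Agent.H83.AY.Hor

/-!
# [H32 NY Fr] ABUNDANCE (MP_e49dc9_ag): `Y = yM X F`: `Ov`, frames, linear systems, principal divisors, dimension
-/

set_option autoImplicit false

namespace Pool.Agent.H32.NY

open Pool.Agent.H54.RV Pool.Agent.H83.TU Pool.Agent.H83.TK Pool.Agent.H24.TK

variable {k K : Type} [Field k] [Field K] [Algebra k K] {X : Mod k K} {F : IntermediateField k K}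

theorem ov_y [CharZero k] (hX : IsVar X) [T0Space X.P] (hg : ∃ g, Gen X g) :
    Pool.Agent.H4.YB.Ov X (yM X F) piY (psi hX hg) where
  le y a ha := pi_le y ha
  eq D y := rfl
  aff D s hs ha := by
    rw [psi_nz hX hg hs]
    exact aff_y ha

/-- frames -/
theorem fr_y [CharZero k] (hX : IsVar X) [T0Space X.P] (hg : ∃ g, Gen X g) {H : Cart X} {r : ℕ} {t : Fin r → K}
    (hF : Fr H r t) : Fr (psi (F := F) hX hg H) r t where
  sec j := fun y => pi_le y (hF.sec j (piY y))
  aff j := by
    rw [psi_nz hX hg (hF.sec j)]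
    exact aff_y (hF.aff j)
  cov y := by
    obtain ⟨j, hj⟩ := hF.cov (piY y)
    refine ⟨j, ?_⟩
    rw [psi_nz hX hg (hF.sec j)]
    exact hj

/-- linear systems -/
theorem lsys_y [CharZero k] (hX : IsVar X) [T0Space X.P] (hg : ∃ g, Gen X g) {H : Cart X} {σ : Type} {s : Option σ → K}
    (hs : LSys X H s) (htr : ∃ i j, s j ≠ 0 ∧ Transcendental F (s i / s j)) : LSys (yM X F) (psi hX hg H) s where
  sec i := psi_sec hX hg (hs.sec i)
  free y := by
    obtain ⟨i, hi⟩ := hs.free (piY y)
    exact ⟨i, pi_un' y hi⟩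
  tr := htr

theorem psi_prin [CharZero k] (hX : IsVar X) [T0Space X.P] (hg : ∃ g, Gen X g) (f : K) (hf : f ≠ 0) :
    psi (F := F) hX hg (prin X f hf) = prin (yM X F) f hf := by
  exact Cart.ext' _ _ fun y => rfl

/-- the dimension -/
theorem trdeg_y {n : ℕ} (h : Algebra.trdeg k K = n + 1) (hF : Algebra.trdeg k F = 1) : Algebra.trdeg F K = n := by
  have h1 := _root_.trdeg_add_eq k F (A := K)
  rw [hF, h, add_comm] at h1
  exact Cardinal.add_one_inj.1 h1

/-- helper83's `Ctr` and `Nml` -/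
theorem ctr_y : Pool.Agent.H83.AY.Ctr X (yM X F) piY where
  le y _ ha := pi_le y ha
  un y _ ha hu := (pi_un y ha).1 hu

theorem nml_y : Pool.Agent.H83.AY.Nml (yM X F) := fun y _ ha => nor_y y ha

theorem char_y [CharZero k] : CharZero F := charZero_of_injective_algebraMap (algebraMap k F).injective

end Pool.Agent.H32.NY
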