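import Pool.Agent.H32.NY.Def

/-!
# [H32 NY Cen] ABUNDANCE (MP_e49dc9_ag), the surface `Y`: centres of places

`y_cen`: a place of a residue field of `Y` has a unique centre.
-/

set_option autoImplicit false

namespace Pool.Agent.H32.NY

open Pool.Agent.H54.RV Pool.Agent.H83.TU Pool.Agent.H83.TK

section places

variable {L M : Type} [Field L] [Field M]

theorem vs_unit (V : ValuationSubring L) (a : V) : IsUnit a ↔ (a : L) ≠ 0 ∧ (a : L)⁻¹ ∈ V := by
  constructor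
  · intro hu
    obtain ⟨b, hb⟩ := hu.exists_right_inv
    have h1 : (a : L) * (b : L) = 1 := congrArg Subtype.val hb
    have h2 : (a : L)⁻¹ = (b : L) := inv_eq_of_mul_eq_one_right h1
    refine ⟨?_, h2 ▸ b.2⟩
    intro h0
    rw [h0, zero_mul] at h1
    exact zero_ne_one h1
  · rintro ⟨h1, h2⟩
    exact IsUnit.of_mul_eq_one ⟨(a : L)⁻¹, h2⟩ (Subtype.ext (mul_inv_cancel₀ h1))

/-- the restriction of a discrete valuation ring is everything or discrete -/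
theorem vs_dvr (j : L →+* M) (W : ValuationSubring M) (hW : IsDiscreteValuationRing W)
    (hne : ∃ a : L, j a ∉ W) : IsDiscreteValuationRing (W.comap j) := by
  obtain ⟨V, hV⟩ : ∃ V, V = W.comap j := ⟨_, rfl⟩
  rw [← hV]
  have hmem : ∀ a : L, a ∈ V ↔ j a ∈ W := by
    intro a
    rw [hV]
    exact Iff.rfl
  let g : V → W := fun a => ⟨j a, (hmem a).1 a.2⟩
  have hWwf : WfDvdMonoid W := inferInstance
  have hwf : WfDvdMonoid V := by
    refine ⟨Subrelation.wf (r := InvImage DvdNotUnit g) ?_ (InvImage.wf g hWwf.wf)⟩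
    intro a b hab
    obtain ⟨ha, x, hx, rfl⟩ := hab
    refine ⟨?_, g x, ?_, ?_⟩
    · intro h0
      have h1 : j (a : L) = 0 := congrArg Subtype.val h0
      exact ha (Subtype.ext ((map_eq_zero j).1 h1))
    · intro hu
      apply hx
      rw [vs_unit] at hu ⊢
      obtain ⟨h1, h2⟩ := hu
      have h3 : (g x : M) = j (x : L) := rfl
      rw [h3] at h1 h2
      refine ⟨fun h0 => h1 (by rw [h0, map_zero]), (hmem _).2 ?_⟩
      rw [map_inv₀]
      exact h2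
    · apply Subtype.ext
      show j ((a * x : V) : L) = j (a : L) * j (x : L)
      rw [← map_mul]
      rfl
  have hpid : IsPrincipalIdealRing V := ((IsBezout.TFAE (R := V)).out 3 1).1 hwf
  refine { toIsPrincipalIdealRing := hpid, toIsLocalRing := inferInstance, not_a_field' := ?_ }
  obtain ⟨a, ha⟩ := hne
  have ha' : a ∉ V := fun h => ha ((hmem a).1 h)
  have ha0 : a ≠ 0 := by
    rintro rfl
    exact ha' V.zero_mem
  have hai : a⁻¹ ∈ V := (V.mem_or_inv_mem a).resolve_left ha'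
  intro hbot
  have h1 : (⟨a⁻¹, hai⟩ : V) ∈ IsLocalRing.maximalIdeal V := by
    rw [IsLocalRing.mem_maximalIdeal, mem_nonunits_iff, vs_unit]
    rintro ⟨-, h2⟩
    rw [inv_inv] at h2
    exact ha' h2
  rw [hbot, Ideal.mem_bot] at h1
  exact inv_ne_zero ha0 (congrArg Subtype.val h1)

end places

variable {k K : Type} [Field k] [Field K] [Algebra k K] {X : Mod k K} {F : IntermediateField k K}

/-- the residue class on `Y` -/
noncomputable abbrev ry (z : YP X F) (a : K) : (yP X F).mod.kap z := (yP X F).mod.rs z a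

theorem ry_zero (z : YP X F) : ry z 0 = 0 := by
  by_contra h1
  exact ((rs_ne (X := (yP X F).mod) z (a := (0 : K)) (z.R.zero_mem)).1 h1).1 rfl

private theorem res_map {A B : Type} [CommRing A] [CommRing B] [IsLocalRing A] [IsLocalRing B] (i : A →+* B)
    (hi : ∀ a, IsUnit (i a) → IsUnit a) :
    ∃ j : IsLocalRing.ResidueField A →+* IsLocalRing.ResidueField B,
      ∀ a, j (IsLocalRing.residue A a) = IsLocalRing.residue B (i a) := by
  have : IsLocalHom i := ⟨hi⟩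
  exact ⟨IsLocalRing.ResidueField.map i, fun a => IsLocalRing.ResidueField.map_residue i a⟩

/-- the map of the residue fields -/
theorem exists_j (z : YP X F) : ∃ j : X.kap z.x →+* (yP X F).mod.kap z, ∀ a ∈ X.O z.x, j (X.rs z.x a) = ry z a := by
  let i : X.O z.x →+* (yP X F).O z :=
    { toFun := fun a => ⟨a, z.le a.2⟩
      map_one' := rfl
      map_mul' := fun _ _ => rfl
      map_zero' := rfl
      map_add' := fun _ _ => rfl }
  obtain ⟨j, hj⟩ := res_map i fun a ha => by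
    have h1 : Un z.R (a : K) := (un_iff (z.le a.2)).1 ha
    exact (un_iff a.2).2 (z.dom a a.2 h1)
  refine ⟨j, fun a ha => ?_⟩
  have h1 : X.rs z.x a = IsLocalRing.residue (X.O z.x) ⟨a, ha⟩ := by
    unfold Mod.rs
    rw [dif_pos ha]
  have h2 : ry z a = IsLocalRing.residue ((yP X F).O z) ⟨a, z.le ha⟩ := by
    have h3 : a ∈ (yP X F).mod.O z := z.le ha
    change (yP X F).mod.rs z a = _
    unfold Mod.rs
    rw [dif_pos h3]
    rfl
  rw [h1, h2]
  exact hj ⟨a, ha⟩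

theorem y_ctr (hX : IsVar X) [T0Space X.P] (z : YP X F) (p : Place F ((yP X F).mod.kap z)) :
    ∃! x : X.P, z.x ⤳ x ∧ ∀ a ∈ X.O x, ry z a ∈ p.R ∧ (ry z a ≠ 0 → (ry z a)⁻¹ ∈ p.R → a⁻¹ ∈ X.O x) := by
  obtain ⟨j, hj⟩ := exists_j z
  have hj' : ∀ x, z.x ⤳ x → ∀ a ∈ X.O x, j (X.rs z.x a) = ry z a := fun x hx a ha => hj a (hX.spec _ _ hx ha)
  have hP : ∀ x, (z.x ⤳ x ∧ ∀ a ∈ X.O x, ry z a ∈ p.R ∧ (ry z a ≠ 0 → (ry z a)⁻¹ ∈ p.R → a⁻¹ ∈ X.O x)) ↔
      (z.x ⤳ x ∧ ∀ a ∈ X.O x, j (X.rs z.x a) ∈ p.R ∧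
        (j (X.rs z.x a) ≠ 0 → (j (X.rs z.x a))⁻¹ ∈ p.R → a⁻¹ ∈ X.O x)) := by
    intro x
    constructor
    · rintro ⟨h1, h2⟩
      refine ⟨h1, fun a ha => ?_⟩
      rw [hj' x h1 a ha]
      exact h2 a ha
    · rintro ⟨h1, h2⟩
      refine ⟨h1, fun a ha => ?_⟩
      rw [← hj' x h1 a ha]
      exact h2 a ha
  rw [existsUnique_congr hP]
  by_cases hne : ∃ a, j a ∉ p.R
  · obtain ⟨p₀, hp₀⟩ : ∃ p₀ : Place k (X.kap z.x), p₀.R = p.R.comap j := by
      refine ⟨⟨p.R.comap j, fun c => ?_, vs_dvr j p.R p.dvr hne⟩, rfl⟩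
      show j (algebraMap k (X.kap z.x) c) ∈ p.R
      rw [← rs_alg, hj _ ((X.O z.x).algebraMap_mem c)]
      have h1 : algebraMap k K c = algebraMap F K (algebraMap k F c) := rfl
      have h2 : ry z (algebraMap k K c) = algebraMap F _ (algebraMap k F c) := by
        rw [h1]
        exact rs_alg (X := (yP X F).mod) z _
      rw [h2]
      exact p.mem _
    have hmem : ∀ a, a ∈ p₀.R ↔ j a ∈ p.R := by
      intro a
      rw [hp₀]
      exact Iff.rfl
    have hiff : ∀ x, Cen X z.x x p₀ ↔ (z.x ⤳ x ∧ ∀ a ∈ X.O x, j (X.rs z.x a) ∈ p.R ∧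
        (j (X.rs z.x a) ≠ 0 → (j (X.rs z.x a))⁻¹ ∈ p.R → a⁻¹ ∈ X.O x)) := by
      intro x
      constructor
      · rintro ⟨h1, -, h3⟩
        refine ⟨h1, fun a ha => ⟨(hmem _).1 (h3 a ha).1, fun h4 h5 => (h3 a ha).2 ?_ ((hmem _).2 ?_)⟩⟩
        · intro h6
          exact h4 (by rw [h6, map_zero])
        · rw [map_inv₀]
          exact h5
      · rintro ⟨h1, h3⟩
        refine ⟨h1, hX.spec _ _ h1, fun a ha => ⟨(hmem _).2 (h3 a ha).1, fun h4 h5 => (h3 a ha).2 ?_ ?_⟩⟩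
        · exact (map_ne_zero j).2 h4
        · rw [← map_inv₀]
          exact (hmem _).1 h5
    obtain ⟨x, hx, hu⟩ := hX.cen z.x p₀
    exact ⟨x, (hiff x).1 hx, fun y hy => hu y ((hiff y).2 hy)⟩
  · push Not at hne
    refine ⟨z.x, ⟨specializes_rfl, fun a ha => ⟨hne _, fun h1 _ => ?_⟩⟩, ?_⟩
    · have h2 : X.rs z.x a ≠ 0 := fun h3 => h1 (by rw [h3, map_zero])
      exact ((rs_ne z.x ha).1 h2).2.2
    · rintro x ⟨h1, h2⟩
      refine (Specializes.antisymm ?_ h1).eq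
      rw [specializes_iff_forall_open]
      intro W hW hzW
      obtain ⟨U, hU, hxU⟩ := hX.chart x
      have hzU : z.x ∈ U := h1.mem_open (hX.op U hU) hxU
      obtain ⟨a, ha, h3, h4⟩ := hX.bas U W z.x hU hW hzU hzW
      refine h4 x hxU ⟨h3.1, ha x hxU, ?_⟩
      refine (h2 a (ha x hxU)).2 ?_ ?_
      · exact (map_ne_zero j).2 ((rs_ne z.x (ha _ hzU)).2 h3)
      · rw [← map_inv₀]
        exact hne _

/-- the composite of the local ring and of the place -/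
noncomputable def cmp (z : YP X F) (p : Place F ((yP X F).mod.kap z)) : Subalgebra F K where
  carrier := {a | a ∈ z.R ∧ ry z a ∈ p.R}
  mul_mem' := by
    rintro a b ⟨ha, ha'⟩ ⟨hb, hb'⟩
    refine ⟨mul_mem ha hb, ?_⟩
    have : ry z (a * b) = ry z a * ry z b := rs_mul (X := (yP X F).mod) z ha hb
    rw [this]
    exact mul_mem ha' hb'
  add_mem' := by
    rintro a b ⟨ha, ha'⟩ ⟨hb, hb'⟩
    refine ⟨add_mem ha hb, ?_⟩
    have : ry z (a + b) = ry z a + ry z b := rs_add (X := (yP X F).mod) z ha hb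
    rw [this]
    exact add_mem ha' hb'
  algebraMap_mem' c := by
    refine ⟨z.R.algebraMap_mem c, ?_⟩
    have : ry z (algebraMap F K c) = algebraMap F _ c := rs_alg (X := (yP X F).mod) z c
    rw [this]
    exact p.mem c

theorem cmp_icl (z : YP X F) (p : Place F ((yP X F).mod.kap z)) : icl (cmp z p) ≤ cmp z p := by
  intro a ha
  have hle : cmp z p ≤ z.R := fun b hb => hb.1
  have haR : a ∈ z.R := z.icl_le (icl_mono hle ha)
  refine ⟨haR, ?_⟩
  let i1 : Algebra (cmp z p) z.R := (Subalgebra.inclusion hle).toRingHom.toAlgebra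
  have i2 : IsScalarTower (cmp z p) z.R K := IsScalarTower.of_algebraMap_eq fun x => rfl
  have h1 : IsIntegral (cmp z p) (⟨a, haR⟩ : z.R) := by
    have h2 : IsIntegral (cmp z p) (algebraMap z.R K ⟨a, haR⟩) := ha
    exact (isIntegral_algebraMap_iff (A := z.R) (B := K) Subtype.val_injective).1 h2
  have hrs : ∀ b : z.R, (IsLocalRing.residue ((yP X F).O z) b : (yP X F).mod.kap z) = ry z b := fun b => by
    have h3 : (b : K) ∈ (yP X F).mod.O z := b.2
    change _ = (yP X F).mod.rs z b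
    unfold Mod.rs
    rw [dif_pos h3]
    rfl
  let φ : cmp z p →+* p.R :=
    { toFun := fun b => ⟨ry z b, b.2.2⟩
      map_one' := Subtype.ext (rs_one (X := (yP X F).mod) z)
      map_mul' := fun b c => Subtype.ext (rs_mul (X := (yP X F).mod) z b.2.1 c.2.1)
      map_zero' := Subtype.ext (ry_zero z)
      map_add' := fun b c => Subtype.ext (rs_add (X := (yP X F).mod) z b.2.1 c.2.1) }
  let ψ : z.R →+* (yP X F).mod.kap z := IsLocalRing.residue ((yP X F).O z)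
  have h2 : IsIntegral p.R (ψ ⟨a, haR⟩) := h1.map_of_comp_eq φ ψ (by
    ext b
    exact (hrs ⟨b, b.2.1⟩).symm)
  have h3 : ψ ⟨a, haR⟩ = ry z a := hrs ⟨a, haR⟩
  rw [h3] at h2
  have h4 : IsIntegrallyClosed p.R := inferInstance
  obtain ⟨y, hy⟩ := (IsIntegrallyClosed.isIntegral_iff (R := p.R)).1 h2
  rw [← hy]
  exact y.2

theorem y_cen (hX : IsVar X) [T0Space X.P] (z : YP X F) (p : Place F ((yP X F).mod.kap z)) :
    ∃! w : YP X F, (yP X F).sp z w ∧ ∀ a ∈ w.R, ry z a ∈ p.R ∧ (ry z a ≠ 0 → (ry z a)⁻¹ ∈ p.R → a⁻¹ ∈ w.R) := by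
  obtain ⟨x, ⟨hzx, hdom⟩, hux⟩ := y_ctr hX z p
  have hle := hX.spec _ _ hzx
  obtain ⟨V, hV⟩ : ∃ V, V = cmp z p := ⟨_, rfl⟩
  have hVm : ∀ a, a ∈ V ↔ a ∈ z.R ∧ ry z a ∈ p.R := fun a => by rw [hV]; exact Iff.rfl
  -- units of `V`
  have hVu : ∀ a ∈ V, Un V a ↔ (ry z a ≠ 0 ∧ (ry z a)⁻¹ ∈ p.R) := by
    intro a ha
    have ha1 := ((hVm a).1 ha).1
    constructor
    · rintro ⟨h1, -, h2⟩
      have h3 : Un z.R a := ⟨h1, ha1, ((hVm _).1 h2).1⟩
      have h4 : ry z a ≠ 0 := (rs_ne (X := (yP X F).mod) z ha1).2 h3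
      have h5 : ry z a⁻¹ = (ry z a)⁻¹ := rs_inv (X := (yP X F).mod) z h3
      refine ⟨h4, ?_⟩
      rw [← h5]
      exact ((hVm _).1 h2).2
    · rintro ⟨h1, h2⟩
      have h3 : Un z.R a := (rs_ne (X := (yP X F).mod) z ha1).1 h1
      have h5 : ry z a⁻¹ = (ry z a)⁻¹ := rs_inv (X := (yP X F).mod) z h3
      exact ⟨h3.1, ha, (hVm _).2 ⟨h3.2.2, by rw [h5]; exact h2⟩⟩
  obtain ⟨B, hB⟩ : ∃ B, B = BA F (X.O x) := ⟨_, rfl⟩
  have hBV : B ≤ V := by
    rw [hB, hV]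
    exact BA_le (cmp_icl z p) fun a ha => ⟨z.le (hle ha), (hdom a ha).1⟩
  -- the prime ideal
  let φ : B →+* p.R :=
    { toFun := fun b => ⟨ry z b, ((hVm _).1 (hBV b.2)).2⟩
      map_one' := Subtype.ext (rs_one (X := (yP X F).mod) z)
      map_mul' := fun b c => Subtype.ext
        (rs_mul (X := (yP X F).mod) z ((hVm _).1 (hBV b.2)).1 ((hVm _).1 (hBV c.2)).1)
      map_zero' := Subtype.ext (ry_zero z)
      map_add' := fun b c => Subtype.ext
        (rs_add (X := (yP X F).mod) z ((hVm _).1 (hBV b.2)).1 ((hVm _).1 (hBV c.2)).1) }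
  obtain ⟨I, hI⟩ : ∃ I : Ideal B, I = (IsLocalRing.maximalIdeal p.R).comap φ := ⟨_, rfl⟩
  have hIp : I.IsPrime := by
    rw [hI]
    exact Ideal.comap_isPrime φ _
  have hIm : ∀ b : B, b ∉ I ↔ Un V (b : K) := by
    intro b
    rw [hI, Ideal.mem_comap, IsLocalRing.mem_maximalIdeal, mem_nonunits_iff, not_not, vs_unit, hVu b (hBV b.2)]
    exact Iff.rfl
  obtain ⟨R, hR⟩ : ∃ R, R = lo B I hIp := ⟨_, rfl⟩
  have hlo : IsLo B R := by rw [hR]; exact isLo_lo B I hIp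
  have hRm : ∀ a, a ∈ R ↔ ∃ s : B, s ∉ I ∧ a * s ∈ B := fun a => by rw [hR]; exact Iff.rfl
  have hRV : R ≤ V := by
    intro a ha
    obtain ⟨s, hs, h1⟩ := (hRm a).1 ha
    have h2 := (hIm s).1 hs
    have h3 : a = a * s * (s : K)⁻¹ := by rw [mul_assoc, mul_inv_cancel₀ h2.1, mul_one]
    rw [h3]
    exact V.mul_mem (hBV h1) h2.2.2
  have hUn : ∀ a, Un R a → Un V a := fun a ha => ⟨ha.1, hRV ha.2.1, hRV ha.2.2⟩
  have hdm : ∀ a ∈ X.O x, Un R a → Un (X.O x) a := by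
    intro a ha hu
    have h1 := (hVu a (hRV hu.2.1)).1 (hUn a hu)
    exact ⟨hu.1, ha, (hdom a ha).2 h1.1 h1.2⟩
  obtain ⟨y, hyx, hyR⟩ : ∃ y : YP X F, y.x = x ∧ y.R = R := ⟨⟨x, R, by rw [← hB]; exact hlo, hdm⟩, rfl, rfl⟩
  refine ⟨y, ⟨?_, fun a ha => ?_⟩, ?_⟩
  · rintro _ ⟨U, hU, rfl⟩ a ha ⟨h1, h2⟩
    have h1' : y.x ∈ U := h1
    rw [hyx] at h1'
    refine ⟨hzx.mem_open (hX.op U hU) h1', ?_⟩
    have h2' : Un y.R a := h2
    rw [hyR] at h2'
    have h3 := hUn a h2'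
    exact ⟨h3.1, ((hVm _).1 h3.2.1).1, ((hVm _).1 h3.2.2).1⟩
  · rw [hyR] at ha ⊢
    refine ⟨((hVm a).1 (hRV ha)).2, fun h1 h2 => ?_⟩
    have h3 : Un V a := (hVu a (hRV ha)).2 ⟨h1, h2⟩
    obtain ⟨s, hs, h4⟩ := (hRm a).1 ha
    have h5 := (hIm s).1 hs
    have h6 : Un V (a * s) := un_mul h3 h5
    have h7 : (⟨_, h4⟩ : B) ∉ I := (hIm _).2 h6
    refine (hRm _).2 ⟨⟨_, h4⟩, h7, ?_⟩
    have h8 : a⁻¹ * (a * s) = s := by rw [← mul_assoc, inv_mul_cancel₀ h3.1, one_mul]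
    change a⁻¹ * (a * s) ∈ B
    rw [h8]
    exact s.2
  · rintro w ⟨hsp, hw⟩
    have hzw : z.x ⤳ w.x := by
      rw [specializes_iff_forall_open]
      intro W hW hwW
      obtain ⟨U, hU, hwU⟩ := hX.chart w.x
      obtain ⟨a, ha, h3, h4⟩ := hX.bas U W w.x hU hW hwU hwW
      have h5 := hsp {y | y.x ∈ U} ⟨U, hU, rfl⟩ a (by
        rw [Pre.mem_sec']
        intro y hy
        exact y.le (ha y.x hy)) ⟨hwU, w.un h3⟩
      exact h4 z.x h5.1 (z.dom a (ha _ h5.1) h5.2)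
    have hwz : w.R ≤ z.R := by
      intro a ha
      obtain ⟨U, hU, hwU⟩ := hX.chart w.x
      obtain ⟨s, hs, h1, h2⟩ := (lo_U hX hU w hwU).fr a ha
      have hsec : ∀ b ∈ BA F (X.sec U), b ∈ (yP X F).sec {y | y.x ∈ U} := fun b hb => by
        rw [Pre.mem_sec']
        intro y hy
        exact (lo_U hX hU y hy).le hb
      have h3 := hsp {y | y.x ∈ U} ⟨U, hU, rfl⟩ s (hsec s hs) ⟨hwU, h1⟩
      have h4 : a * s ∈ z.R := (lo_U hX hU z h3.1).le h2
      have h5 : a = a * s * s⁻¹ := by rw [mul_assoc, mul_inv_cancel₀ h1.1, mul_one]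
      rw [h5]
      exact z.R.mul_mem h4 h3.2.2.2
    have hwx : w.x = x := hux w.x ⟨hzw, fun a ha => ⟨(hw a (w.le ha)).1, fun h1 h2 => by
      have h3 := (hw a (w.le ha)).2 h1 h2
      have ha0 : a ≠ 0 := by
        rintro rfl
        apply h1
        by_contra h4
        exact ((rs_ne (X := (yP X F).mod) z (a := (0 : K)) (z.R.zero_mem)).1 h4).1 rfl
      exact (w.dom a ha ⟨ha0, w.le ha, h3⟩).2.2⟩⟩
    have hwlo : IsLo B w.R := by
      rw [hB, ← hwx]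
      exact w.lo
    have hwR : w.R = R := by
      apply le_antisymm
      · intro a ha
        obtain ⟨s, hs, h1, h2⟩ := hwlo.fr a ha
        refine (hRm a).2 ⟨⟨s, hs⟩, (hIm _).2 ?_, h2⟩
        exact ⟨h1.1, hBV hs, (hVm _).2 ⟨hwz h1.2.2, (hw _ h1.2.2).1⟩⟩
      · intro a ha
        obtain ⟨s, hs, h1⟩ := (hRm a).1 ha
        have h2 := (hVu s (hBV s.2)).1 ((hIm s).1 hs)
        have h3 := (hw s (hwlo.le s.2)).2 h2.1 h2.2
        have h4 := ((hIm s).1 hs).1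
        have h5 : a = a * s * (s : K)⁻¹ := by rw [mul_assoc, mul_inv_cancel₀ h4, mul_one]
        rw [h5]
        exact w.R.mul_mem (hwlo.le h1) h3
    obtain ⟨wx, wR, h1, h2⟩ := w
    obtain ⟨yx, yR, h3, h4⟩ := y
    simp only at hwx hwR hyx hyR
    subst hwx hwR hyx hyR
    rfl

end Pool.Agent.H32.NY
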