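import Pool.Agent.H32.NY.Loc
import Pool.Agent.H83.TK.PreV
import Pool.Agent.H83.TU.Cen

/-!
# [H32 NY Def] ABUNDANCE (MP_e49dc9_ag): the surface `Y`, definitions

`X : Mod k K`, `F` a field between `k` and `K`.  `BA F A`: the integral closure in `K` of the ring `F[A]`, `A` a subalgebra of `K`.
`yM X F : Mod F K`: the points are the pairs of a point `x` of `X` and a localization `R` of `BA F (X.O x)` which dominates `X.O x`; the local ring is `R`; the charts are the preimages
of the affine open sets of `X`.  (For `F = k` this is the normalization of `X`; for `F` the field of a pencil it is the normalization of the generic member.)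

* `BA_clr`: denominators of integral elements.
* `lo_U`: the local rings over the affine open set `U` are localizations of `BA F (X.sec U)`.
* `pt`: the points over `U` are the prime ideals of `BA F (X.sec U)`.
* `sec_U`: `BA F (X.sec U)` is the ring of functions over `U`.
-/

set_option autoImplicit false

namespace Pool.Agent.H32.NY

open Pool.Agent.H54.RV Pool.Agent.H83.TU Pool.Agent.H83.TK

variable {k K : Type} [Field k] [Field K] [Algebra k K]

/-- the ring `F[A]` -/
def adj (F : IntermediateField k K) (A : Subalgebra k K) : Subalgebra F K := Algebra.adjoin F (A : Set K)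

/-- the integral closure of `F[A]` -/
def BA (F : IntermediateField k K) (A : Subalgebra k K) : Subalgebra F K := icl (adj F A)

section

variable {F : IntermediateField k K} {A A' : Subalgebra k K}

theorem le_adj {a : K} (ha : a ∈ A) : a ∈ adj F A := Algebra.subset_adjoin ha

theorem le_BA {a : K} (ha : a ∈ A) : a ∈ BA F A := le_icl _ (le_adj ha)

theorem BA_mono (h : A ≤ A') : BA F A ≤ BA F A' := icl_mono (Algebra.adjoin_mono h)

theorem icl_BA : icl (BA F A) ≤ BA F A := fun _ h => icl_icl h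

/-- an integrally closed subalgebra which contains `A` contains `BA F A` -/
theorem BA_le {R : Subalgebra F K} (hR : icl R ≤ R) (h : ∀ a ∈ A, a ∈ R) : BA F A ≤ R :=
  (icl_mono (Algebra.adjoin_le h)).trans hR

theorem adj_clr {M : Submonoid K} (hM : ∀ m ∈ M, m ∈ A) (h : ∀ a ∈ A', ∃ m ∈ M, a * m ∈ A) {a : K}
    (ha : a ∈ adj F A') : ∃ m ∈ M, a * m ∈ adj F A := by
  unfold adj at ha
  induction ha using Algebra.adjoin_induction with
  | mem x hx =>
    obtain ⟨m, hm, h1⟩ := h x hx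
    exact ⟨m, hm, le_adj h1⟩
  | algebraMap c =>
    exact ⟨1, one_mem _, by rw [mul_one]; exact (adj F A).algebraMap_mem c⟩
  | add x y _ _ hx hy =>
    obtain ⟨m, hm, h1⟩ := hx
    obtain ⟨n, hn, h2⟩ := hy
    refine ⟨m * n, mul_mem hm hn, ?_⟩
    have e : (x + y) * (m * n) = x * m * n + y * n * m := by ring
    rw [e]
    exact add_mem (mul_mem h1 (le_adj (hM n hn))) (mul_mem h2 (le_adj (hM m hm)))
  | mul x y _ _ hx hy =>
    obtain ⟨m, hm, h1⟩ := hx
    obtain ⟨n, hn, h2⟩ := hy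
    refine ⟨m * n, mul_mem hm hn, ?_⟩
    have e : x * y * (m * n) = x * m * (y * n) := by ring
    rw [e]
    exact mul_mem h1 h2

/-- **denominators** -/
theorem BA_clr {M : Submonoid K} (hM : ∀ m ∈ M, m ∈ A) (h0 : (0 : K) ∉ M) (h : ∀ a ∈ A', ∃ m ∈ M, a * m ∈ A) {a : K}
    (ha : a ∈ BA F A') : ∃ m ∈ M, a * m ∈ BA F A :=
  clr (fun m hm => le_adj (hM m hm)) h0 (fun _ ha => adj_clr hM h ha) ha

end

variable (X : Mod k K) (F : IntermediateField k K)

/-- the points of `Y` -/
structure YP where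
  /-- the image in `X` -/
  x : X.P
  /-- the local ring -/
  R : Subalgebra F K
  lo : IsLo (BA F (X.O x)) R
  dom : ∀ a ∈ X.O x, Un R a → Un (X.O x) a

/-- `Y`, as points, local rings and charts -/
def yP : Pre F K where
  P := YP X F
  O y := y.R
  loc y := y.lo.loc
  ch := {C | ∃ U : Set X.P, X.aff U ∧ C = {y | y.x ∈ U}}

/-- **the surface `Y`** -/
def yM : Mod F K := (yP X F).mod

variable {X F}

/-- the denominators in `sec U` at the point `x` -/
def dn (X : Mod k K) (U : Set X.P) (x : X.P) : Submonoid K where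
  carrier := {a | a ∈ X.sec U ∧ Un (X.O x) a}
  one_mem' := ⟨one_mem _, un_one _⟩
  mul_mem' := fun ha hb => ⟨mul_mem ha.1 hb.1, un_mul ha.2 hb.2⟩

theorem sec_leO (U : Set X.P) {x : X.P} (hx : x ∈ U) : X.sec U ≤ X.O x := iInf₂_le x hx

theorem YP.le (y : YP X F) {a : K} (ha : a ∈ X.O y.x) : a ∈ y.R := y.lo.le (le_BA ha)

theorem YP.un (y : YP X F) {a : K} (ha : Un (X.O y.x) a) : Un y.R a := ⟨ha.1, y.le ha.2.1, y.le ha.2.2⟩

theorem YP.icl_le (y : YP X F) : icl y.R ≤ y.R := lo_icl icl_BA y.lo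

/-- the local rings over `U` are localizations of `BA F (X.sec U)` -/
theorem lo_U (hX : IsVar X) {U : Set X.P} (hU : X.aff U) (y : YP X F) (hy : y.x ∈ U) : IsLo (BA F (X.sec U)) y.R := by
  refine ⟨(BA_mono (sec_leO U hy)).trans y.lo.le, y.lo.loc, fun a ha => ?_⟩
  obtain ⟨s, hs, hu, has⟩ := y.lo.fr a ha
  have key : ∀ b ∈ BA F (X.O y.x), ∃ m ∈ dn X U y.x, b * m ∈ BA F (X.sec U) := fun b hb =>
    BA_clr (M := dn X U y.x) (fun m hm => hm.1) (fun h1 => h1.2.1 rfl) (fun c hc => by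
      obtain ⟨s, h1, h2, h3⟩ := hX.frac U y.x hU hy c hc
      exact ⟨s, ⟨h1, h2⟩, h3⟩) hb
  obtain ⟨m, hm, h1⟩ := key s hs
  obtain ⟨n, hn, h2⟩ := key (a * s) has
  refine ⟨s * m * n, mul_mem h1 (le_BA hn.1), un_mul (un_mul hu (y.un hm.2)) (y.un hn.2), ?_⟩
  have e : a * (s * m * n) = a * s * n * m := by ring
  rw [e]
  exact mul_mem h2 (le_BA hm.1)

/-- the points over `U` are the prime ideals of `BA F (X.sec U)` -/
theorem pt (hX : IsVar X) {U : Set X.P} (hU : X.aff U) (hne : U.Nonempty) (I : Ideal (BA F (X.sec U))) (hI : I.IsPrime) :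
    ∃ y : YP X F, y.x ∈ U ∧ y.R = lo (BA F (X.sec U)) I hI := by
  -- the prime ideal of `sec U`
  let j : X.sec U →+* BA F (X.sec U) :=
    { toFun := fun a => ⟨a, le_BA a.2⟩
      map_one' := rfl
      map_mul' := fun _ _ => rfl
      map_zero' := rfl
      map_add' := fun _ _ => rfl }
  obtain ⟨x, hx, hIx⟩ := hX.prime U hU hne (I.comap j) (Ideal.IsPrime.comap j)
  obtain ⟨R, hR⟩ : ∃ R, R = lo (BA F (X.sec U)) I hI := ⟨_, rfl⟩
  have hlo : IsLo (BA F (X.sec U)) R := by rw [hR]; exact isLo_lo _ I hI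
  have hus : ∀ s : X.sec U, Un (X.O x) (s : K) ↔ Un R (s : K) := fun s => by
    have h1 := hIx s
    rw [hR]
    have h2 := un_lo (hI := hI) (j s)
    change Un _ (s : K) ↔ _ at h2
    rw [h2, ← not_iff_not, ← h1, not_not]
    exact Iff.rfl
  have hO : ∀ a ∈ X.O x, a ∈ R := fun a ha => by
    obtain ⟨s, h1, h2, h3⟩ := hX.frac U x hU hx a ha
    have h4 := (hus ⟨s, h1⟩).1 h2
    have h5 : a = a * s * s⁻¹ := by rw [mul_assoc, mul_inv_cancel₀ h2.1, mul_one]
    rw [h5]
    exact R.mul_mem (hlo.le (le_BA h3)) h4.2.2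
  refine ⟨⟨x, R, ⟨BA_le (lo_icl icl_BA hlo) hO, hlo.loc, fun a ha => ?_⟩, fun a ha hu => ?_⟩, hx, hR⟩
  · obtain ⟨s, h1, h2, h3⟩ := hlo.fr a ha
    have h4 : BA F (X.sec U) ≤ BA F (X.O x) := BA_mono (sec_leO U hx)
    exact ⟨s, h4 h1, h2, h4 h3⟩
  · obtain ⟨s, h1, h2, h3⟩ := hX.frac U x hU hx a ha
    have h4 : Un R (a * s) := un_mul hu ((hus ⟨s, h1⟩).1 h2)
    have h5 := (hus ⟨_, h3⟩).2 h4
    exact ((un_mul_iff ha h2.2.1).1 h5).1

/-- the functions over `U` -/
theorem sec_U (hX : IsVar X) {U : Set X.P} (hU : X.aff U) (hne : U.Nonempty) :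
    (yP X F).sec {y | y.x ∈ U} = BA F (X.sec U) := by
  apply le_antisymm
  · intro a ha
    rw [Pre.mem_sec'] at ha
    refine mem_of_lo fun I hI => ?_
    obtain ⟨y, hy, hyR⟩ := pt hX hU hne I hI
    rw [← hyR]
    exact ha y hy
  · intro a ha
    rw [Pre.mem_sec']
    intro y hy
    exact (lo_U hX hU y hy).le ha

end Pool.Agent.H32.NY
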