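import Mathlib

/-!
# [H32 NY Icl] ABUNDANCE (MP_e49dc9_ag), the surface `Y`: the integral closure of a finitely generated algebra is finitely generated (Mathlib only)

`icl A`: the integral closure in the field `K` of the subalgebra `A` of `K`.  `icl_fg`: characteristic zero, `A` finitely generated over the field `F`, `K` the field of
fractions of `A`: then `icl A` is finitely generated over `F` (Noether normalization, finiteness of the integral closure of a polynomial ring).
-/

set_option autoImplicit false

namespace Pool.Agent.H32.NY

variable {F K : Type} [Field F] [Field K] [Algebra F K]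

/-- the integral closure in `K` -/
def icl (A : Subalgebra F K) : Subalgebra F K := (integralClosure A K).restrictScalars F

theorem mem_icl {A : Subalgebra F K} {a : K} : a ∈ icl A ↔ IsIntegral A a := Iff.rfl

theorem le_icl (A : Subalgebra F K) : A ≤ icl A := fun a ha => by
  rw [mem_icl]
  exact isIntegral_algebraMap (x := (⟨a, ha⟩ : A))

/-- an element which is integral over `icl A` is in `icl A` -/
theorem icl_icl {A : Subalgebra F K} {a : K} (h : IsIntegral (icl A) a) : a ∈ icl A := by
  have h1 : IsIntegral (integralClosure A K) a := h
  exact isIntegral_trans a h1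

theorem icl_mono {A B : Subalgebra F K} (h : A ≤ B) : icl A ≤ icl B := fun a ha => by
  rw [mem_icl] at ha ⊢
  obtain ⟨p, hp, he⟩ := ha
  refine ⟨p.map (Subalgebra.inclusion h).toRingHom, hp.map _, ?_⟩
  rw [Polynomial.eval₂_map]
  exact he

theorem icl_fg [CharZero F] (A : Subalgebra F K) (hA : A.FG) (hfr : ∀ b : K, ∃ s ∈ A, s ≠ 0 ∧ b * s ∈ A) :
    (icl A).FG := by
  have hft : Algebra.FiniteType F A := (Subalgebra.fg_iff_finiteType A).1 hA
  obtain ⟨n, g, hinj, hfin⟩ := exists_finite_inj_algHom_of_fg F A
  let P := MvPolynomial (Fin n) F
  let i1 : Algebra P A := g.toRingHom.toAlgebra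
  let i2 : Algebra P K := (A.val.comp g).toRingHom.toAlgebra
  have t1 : IsScalarTower P A K := IsScalarTower.of_algebraMap_eq fun x => rfl
  have t2 : IsScalarTower F P K := IsScalarTower.of_algebraMap_eq fun x => ((A.val.comp g).commutes x).symm
  have f1 : Module.Finite P A := hfin
  have hPK : Function.Injective (algebraMap P K) := Subtype.val_injective.comp hinj
  have n1 : FaithfulSMul P K := (faithfulSMul_iff_algebraMap_injective P K).2 hPK
  let L := FractionRing P
  let i3 : Algebra L K := FractionRing.liftAlgebra P K
  have t3 : IsScalarTower P L K := inferInstance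
  have c1 : CharZero L := charZero_of_injective_algebraMap (R := F) (A := L) (algebraMap F L).injective
  have hint : ∀ a : A, IsIntegral P (a : K) := fun a => by
    have h1 : IsIntegral P a := Algebra.IsIntegral.isIntegral a
    exact h1.map (IsScalarTower.toAlgHom P A K)
  -- `K` is finite over `L`
  have f2 : FiniteDimensional L K := by
    obtain ⟨S, hS⟩ := f1.fg_top
    obtain ⟨S', hS'⟩ : ∃ S' : Set K, S' = Subtype.val '' (S : Set A) := ⟨_, rfl⟩
    have hfS : S'.Finite := by
      rw [hS']
      exact S.finite_toSet.image _
    have := hfS.to_subtype
    have h1 : ∀ x ∈ S', IsIntegral L x := by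
      rw [hS']
      rintro _ ⟨a, -, rfl⟩
      exact (hint a).tower_top
    have h2 : IntermediateField.adjoin L S' = ⊤ := by
      rw [eq_top_iff]
      intro b _
      have h3 : ∀ a : A, (a : K) ∈ IntermediateField.adjoin L S' := by
        intro a
        have h4 : a ∈ Submodule.span P (S : Set A) := by
          rw [hS]
          exact Submodule.mem_top
        induction h4 using Submodule.span_induction with
        | mem x hx =>
          exact IntermediateField.subset_adjoin L S' (by rw [hS']; exact ⟨x, hx, rfl⟩)
        | zero => exact (IntermediateField.adjoin L S').zero_mem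
        | add x y _ _ hx hy => exact (IntermediateField.adjoin L S').add_mem hx hy
        | smul p x _ hx =>
          have h5 : ((p • x : A) : K) = algebraMap L K (algebraMap P L p) * (x : K) := by
            rw [← IsScalarTower.algebraMap_apply P L K, Algebra.smul_def]
            rfl
          rw [h5]
          exact (IntermediateField.adjoin L S').mul_mem ((IntermediateField.adjoin L S').algebraMap_mem _) hx
      obtain ⟨s, hs, hs0, hbs⟩ := hfr b
      have h6 : b = (b * s) / s := by rw [mul_div_cancel_right₀ _ hs0]
      rw [h6]
      exact (IntermediateField.adjoin L S').div_mem (h3 ⟨_, hbs⟩) (h3 ⟨_, hs⟩)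
    have h3 : FiniteDimensional L (IntermediateField.adjoin L S') :=
      IntermediateField.finiteDimensional_adjoin h1
    rw [h2] at h3
    exact (IntermediateField.topEquiv (F := L) (E := K)).toLinearEquiv.finiteDimensional
  have f3 : Module.Finite P (integralClosure P K) := IsIntegralClosure.finite P L K (integralClosure P K)
  have t4 : IsScalarTower F P (integralClosure P K) := IsScalarTower.of_algebraMap_eq fun x =>
    Subtype.ext (IsScalarTower.algebraMap_apply F P K x)
  have h1 : Algebra.FiniteType F (integralClosure P K) :=
    Algebra.FiniteType.trans (S := P) inferInstance inferInstance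
  have h2 : icl A = (integralClosure P K).restrictScalars F := by
    ext a
    rw [mem_icl]
    change _ ↔ IsIntegral P a
    constructor
    · intro h3
      have : Algebra.IsIntegral P A := inferInstance
      exact isIntegral_trans a h3
    · exact fun h3 => h3.tower_top
  rw [h2]
  exact (Subalgebra.fg_iff_finiteType _).2 h1

end Pool.Agent.H32.NY
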