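import Pool.Agent.H32.NY.Icl
import Pool.Agent.H54.RV.B1

/-!
# [H32 NY Loc] ABUNDANCE (MP_e49dc9_ag), the surface `Y`: localizations of subalgebras of a field

* `clr`: `β` integral over `A'`, and the elements of `A'` are fractions of `A` with denominators in the submonoid `M` of `A`: then `β m` is integral over `A` for some `m ∈ M`.
* `IsLo B R`: the local ring `R` is a localization of `B`: `B ≤ R`, and the elements of `R` are fractions of `B` with denominators in `B` which are units of `R`.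
* `lo B I`: the localization of `B` at the prime ideal `I`.
* `lo_icl`: the localizations of an integrally closed `B` are integrally closed.
-/

set_option autoImplicit false

namespace Pool.Agent.H32.NY

open Pool.Agent.H54.RV

variable {F K : Type} [Field F] [Field K] [Algebra F K]

/-- the fractions of `A` with denominators in `M` -/
def lom (A : Subalgebra F K) (M : Submonoid K) (hM : ∀ m ∈ M, m ∈ A) : Subalgebra F K where
  carrier := {a | ∃ m ∈ M, a * m ∈ A}
  mul_mem' := by
    rintro a b ⟨m, hm, ha⟩ ⟨n, hn, hb⟩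
    refine ⟨m * n, mul_mem hm hn, ?_⟩
    have e : a * b * (m * n) = a * m * (b * n) := by ring
    rw [e]
    exact mul_mem ha hb
  add_mem' := by
    rintro a b ⟨m, hm, ha⟩ ⟨n, hn, hb⟩
    refine ⟨m * n, mul_mem hm hn, ?_⟩
    have e : (a + b) * (m * n) = a * m * n + b * n * m := by ring
    rw [e]
    exact add_mem (mul_mem ha (hM n hn)) (mul_mem hb (hM m hm))
  algebraMap_mem' c := ⟨1, one_mem _, by rw [mul_one]; exact A.algebraMap_mem c⟩

theorem clr {A A' : Subalgebra F K} {M : Submonoid K} (hM : ∀ m ∈ M, m ∈ A) (h0 : (0 : K) ∉ M)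
    (h : ∀ a ∈ A', ∃ m ∈ M, a * m ∈ A) {β : K} (hβ : IsIntegral A' β) : ∃ m ∈ M, β * m ∈ icl A := by
  obtain ⟨L, hL⟩ : ∃ L, L = lom A M hM := ⟨_, rfl⟩
  have hLm : ∀ a, a ∈ L ↔ ∃ m ∈ M, a * m ∈ A := fun a => by rw [hL]; exact Iff.rfl
  have hAL : A ≤ L := fun a ha => (hLm a).2 ⟨1, one_mem _, by rwa [mul_one]⟩
  have hA'L : A' ≤ L := fun a ha => (hLm a).2 (h a ha)
  have hβL : IsIntegral L β := icl_mono hA'L hβ
  let i1 : Algebra A L := (Subalgebra.inclusion hAL).toRingHom.toAlgebra
  have i2 : IsScalarTower A L K := IsScalarTower.of_algebraMap_eq fun x => rfl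
  have hne : ∀ m ∈ M, m ≠ 0 := fun m hm h1 => h0 (h1 ▸ hm)
  have i3 : IsLocalization (M.comap (A.val : A →* K)) L :=
    { map_units := fun m => by
        have hm : ((m : A) : K) ∈ M := m.2
        have hinv : ((m : A) : K)⁻¹ ∈ L := (hLm _).2 ⟨_, hm, by rw [inv_mul_cancel₀ (hne _ hm)]; exact one_mem _⟩
        refine IsUnit.of_mul_eq_one (⟨_, hinv⟩ : L) ?_
        apply Subtype.ext
        exact mul_inv_cancel₀ (hne _ hm)
      surj := fun z => by
        obtain ⟨m, hm, hz⟩ := (hLm _).1 z.2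
        exact ⟨(⟨_, hz⟩, ⟨⟨m, hM m hm⟩, hm⟩), Subtype.ext rfl⟩
      exists_of_eq := fun {x y} hxy => by
        refine ⟨1, ?_⟩
        have h1 : (x : K) = y := congrArg (fun t : L => (t : K)) hxy
        rw [Subtype.ext h1] }
  obtain ⟨m, hm⟩ := hβL.exists_multiple_integral_of_isLocalization (M.comap (A.val : A →* K)) (Rₘ := L)
  refine ⟨((m : A) : K), m.2, ?_⟩
  rw [mem_icl, mul_comm]
  exact hm

/-- `R` is a localization of `B` -/
structure IsLo (B R : Subalgebra F K) : Prop where
  le : B ≤ R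
  loc : IsLocalRing R
  fr : ∀ a ∈ R, ∃ s ∈ B, Un R s ∧ a * s ∈ B

/-- the units of a subalgebra -/
def unM (R : Subalgebra F K) : Submonoid K where
  carrier := {a | Un R a}
  one_mem' := un_one R
  mul_mem' := fun ha hb => un_mul ha hb

theorem lo_icl {B R : Subalgebra F K} (hB : icl B ≤ B) (h : IsLo B R) : icl R ≤ R := by
  intro β hβ
  obtain ⟨m, hm, h1⟩ := clr (A := B) (A' := R) (M := unM R ⊓ B.toSubmonoid) (fun m hm => hm.2)
    (fun h1 => h1.1.1 rfl) (fun a ha => by
      obtain ⟨s, hs, hu, has⟩ := h.fr a ha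
      exact ⟨s, ⟨hu, hs⟩, has⟩) hβ
  have h2 := h.le (hB h1)
  have h3 := R.mul_mem h2 hm.1.2.2
  rwa [mul_assoc, mul_inv_cancel₀ hm.1.1, mul_one] at h3

/-- the localization at a prime ideal -/
def lo (B : Subalgebra F K) (I : Ideal B) (hI : I.IsPrime) : Subalgebra F K where
  carrier := {a | ∃ s : B, s ∉ I ∧ a * s ∈ B}
  mul_mem' := by
    rintro a b ⟨m, hm, ha⟩ ⟨n, hn, hb⟩
    refine ⟨m * n, fun h => (hI.mem_or_mem h).elim hm hn, ?_⟩
    have e : a * b * ((m * n : B) : K) = a * m * (b * n) := by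
      rw [Subalgebra.coe_mul]
      ring
    rw [e]
    exact mul_mem ha hb
  add_mem' := by
    rintro a b ⟨m, hm, ha⟩ ⟨n, hn, hb⟩
    refine ⟨m * n, fun h => (hI.mem_or_mem h).elim hm hn, ?_⟩
    have e : (a + b) * ((m * n : B) : K) = a * m * n + b * n * m := by
      rw [Subalgebra.coe_mul]
      ring
    rw [e]
    exact add_mem (mul_mem ha n.2) (mul_mem hb m.2)
  algebraMap_mem' c := ⟨1, fun h => hI.ne_top ((Ideal.eq_top_iff_one _).2 h), by
    rw [Subalgebra.coe_one, mul_one]
    exact B.algebraMap_mem c⟩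

theorem mem_lo {B : Subalgebra F K} {I : Ideal B} {hI : I.IsPrime} {a : K} :
    a ∈ lo B I hI ↔ ∃ s : B, s ∉ I ∧ a * s ∈ B := Iff.rfl

theorem le_lo (B : Subalgebra F K) (I : Ideal B) (hI : I.IsPrime) : B ≤ lo B I hI := fun a ha =>
  ⟨1, fun h => hI.ne_top ((Ideal.eq_top_iff_one _).2 h), by
    rw [Subalgebra.coe_one, mul_one]
    exact ha⟩

/-- the units of the localization -/
theorem un_lo {B : Subalgebra F K} {I : Ideal B} {hI : I.IsPrime} (b : B) : Un (lo B I hI) b ↔ b ∉ I := by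
  constructor
  · rintro ⟨h0, -, s, hs, h1⟩ hb
    -- `b⁻¹ s ∈ B`
    apply hs
    have e : s = (⟨_, h1⟩ : B) * b := by
      apply Subtype.ext
      change (s : K) = (b : K)⁻¹ * s * b
      field_simp
    rw [e]
    exact I.mul_mem_left _ hb
  · intro hb
    have h0 : (b : K) ≠ 0 := fun h => hb (by
      have : b = 0 := Subtype.ext h
      rw [this]
      exact I.zero_mem)
    exact ⟨h0, le_lo B I hI b.2, b, hb, by rw [inv_mul_cancel₀ h0]; exact B.one_mem⟩

theorem lo_local (B : Subalgebra F K) (I : Ideal B) (hI : I.IsPrime) : IsLocalRing (lo B I hI) := by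
  have hnt : Nontrivial (lo B I hI) := inferInstance
  apply IsLocalRing.of_isUnit_or_isUnit_one_sub_self
  rintro ⟨a, ha⟩
  obtain ⟨s, hs, h1⟩ := ha
  have hu : Un (lo B I hI) (s : K) := (un_lo s).2 hs
  -- `a = b / s`
  obtain ⟨b, hb⟩ : ∃ b : B, b = (⟨_, h1⟩ : B) := ⟨_, rfl⟩
  have hbs : (b : K) = a * s := by rw [hb]
  by_cases h2 : b ∈ I
  · right
    have h3 : s - b ∉ I := fun h4 => hs (by
      have := I.add_mem h4 h2
      rwa [sub_add_cancel] at this)
    have ha' : a ∈ lo B I hI := ⟨s, hs, h1⟩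
    refine (un_iff (sub_mem (one_mem _) ha')).2 ?_
    have h4 := (un_lo (hI := hI) (s - b)).2 h3
    have h5 : (1 : K) - a = ((s - b : B) : K) * (s : K)⁻¹ := by
      have := hu.1
      rw [Subalgebra.coe_sub, hbs]
      field_simp
    rw [h5]
    exact un_mul h4 (un_inv hu)
  · left
    rw [un_iff (⟨s, hs, h1⟩ : a ∈ lo B I hI)]
    have h4 := (un_lo (hI := hI) b).2 h2
    have h5 : a = (b : K) * (s : K)⁻¹ := by
      have := hu.1
      rw [hbs]
      field_simp
    rw [h5]
    exact un_mul h4 (un_inv hu)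

theorem isLo_lo (B : Subalgebra F K) (I : Ideal B) (hI : I.IsPrime) : IsLo B (lo B I hI) where
  le := le_lo B I hI
  loc := lo_local B I hI
  fr a ha := by
    obtain ⟨s, hs, h1⟩ := ha
    exact ⟨s, s.2, (un_lo s).2 hs, h1⟩

/-- an element of all localizations of `B` -/
theorem mem_of_lo {B : Subalgebra F K} {a : K} (h : ∀ (I : Ideal B) (hI : I.IsPrime), a ∈ lo B I hI) : a ∈ B := by
  let J : Ideal B :=
    { carrier := {s | a * (s : K) ∈ B}
      zero_mem' := by
        change a * ((0 : B) : K) ∈ B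
        rw [Subalgebra.coe_zero, mul_zero]
        exact B.zero_mem
      add_mem' := fun {s t} hs ht => by
        change a * ((s + t : B) : K) ∈ B
        rw [Subalgebra.coe_add, mul_add]
        exact B.add_mem hs ht
      smul_mem' := fun c s hs => by
        change a * ((c * s : B) : K) ∈ B
        rw [Subalgebra.coe_mul, mul_left_comm]
        exact B.mul_mem c.2 hs }
  have hJ : J = ⊤ := by
    by_contra hcon
    obtain ⟨I, hI, hJI⟩ := Ideal.exists_le_maximal J hcon
    obtain ⟨s, hs, h1⟩ := h I hI.isPrime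
    exact hs (hJI h1)
  have h1 : (1 : B) ∈ J := by rw [hJ]; trivial
  change a * ((1 : B) : K) ∈ B at h1
  rwa [Subalgebra.coe_one, mul_one] at h1

end Pool.Agent.H32.NY
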