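import Pool.Agent.H32.NY.Cen
import Pool.Agent.H54.RV.Grp

/-!
# [H32 NY Y] ABUNDANCE (MP_e49dc9_ag): the surface `Y = yM X F`

`X` a variety over `k` (`IsVar`, T0, generic point), characteristic `0`, `F` a field between `k` and `K`.  `yM X F : Mod F K`.
* `isVar_y`, `gen_y`, `t0_y`: `Y` is a variety over `F` with function field `K`.
* `nor_y`: its local rings are integrally closed in `K`.
* `piY`: the map to `X`; `pi_le`, `pi_un`: `X.O (piY y)` is dominated by the local ring at `y`; `pi_cont`: it is continuous; `aff_y`: the preimages of affine open sets are affine;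
  `sec_y`: the functions on the preimage of the affine open set `U` are `BA F (X.sec U)`, the integral closure of `F[X.sec U]`; `lo_y`: the local rings over `U` are
  localizations of it; `pt_y`: all its prime ideals are points.
* `psi`: the pull-back of Cartier divisors; `psi_ample`; `psi_sec`: sections on `X` are sections on `Y`.
-/

set_option autoImplicit false

namespace Pool.Agent.H32.NY

open Pool.Agent.H54.RV Pool.Agent.H83.TU Pool.Agent.H83.TK

variable {k K : Type} [Field k] [Field K] [Algebra k K] {X : Mod k K} {F : IntermediateField k K}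

/-- the generic point of `Y` -/
def yg {g : X.P} (hg : Gen X g) : YP X F where
  x := g
  R := ⊤
  lo := by
    have h1 : BA F (X.O g) = ⊤ := by
      rw [eq_top_iff]
      intro a _
      exact le_BA (by rw [hg.top]; exact Algebra.mem_top)
    rw [h1]
    refine ⟨le_rfl, ?_, fun a ha => ⟨1, Algebra.mem_top, un_one _, Algebra.mem_top⟩⟩
    exact IsLocalRing.of_isUnit_or_isUnit_one_sub_self fun a => by
      by_cases h2 : (a : K) = 0
      · right
        rw [show a = 0 from Subtype.ext h2, sub_zero]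
        exact isUnit_one
      · left
        refine IsUnit.of_mul_eq_one (⟨(a : K)⁻¹, Algebra.mem_top⟩ : (⊤ : Subalgebra F K)) ?_
        exact Subtype.ext (mul_inv_cancel₀ h2)
  dom a ha hu := by
    rw [hg.top]
    exact ⟨hu.1, Algebra.mem_top, Algebra.mem_top⟩

theorem fg_of_eq {F K : Type} [Field F] [Field K] [Algebra F K] {A B : Subalgebra F K} (h : A = B) (hA : A.FG) : B.FG := h ▸ hA

theorem ideal_of_eq {F K : Type} [Field F] [Field K] [Algebra F K] {A B : Subalgebra F K} (h : A = B) (I : Ideal B)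
    (hI : I.IsPrime) : ∃ I' : Ideal A, I'.IsPrime ∧ ∀ (a : B) (ha : (a : K) ∈ A), a ∈ I ↔ (⟨a, ha⟩ : A) ∈ I' := by
  subst h
  exact ⟨I, hI, fun a ha => Iff.rfl⟩

theorem ok_y [CharZero k] (hX : IsVar X) [T0Space X.P] (hg : ∃ g, Gen X g) : (yP X F).Ok where
  ne := by
    obtain ⟨g, hg⟩ := hg
    exact ⟨(yg hg : YP X F)⟩
  fin := by
    have := hX.comp
    choose U hU hxU using hX.chart
    obtain ⟨t, ht⟩ := isCompact_univ.elim_nhds_subcover U
      (fun x _ => (hX.op (U x) (hU x)).mem_nhds (hxU x))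
    refine ⟨(fun x => {y : YP X F | y.x ∈ U x}) '' (t : Set X.P), (t.finite_toSet).image _, ?_, ?_⟩
    · rintro _ ⟨x, _, rfl⟩
      exact ⟨U x, hU x, rfl⟩
    · intro z
      have h1 := ht.2 (Set.mem_univ z.x)
      rw [Set.mem_iUnion₂] at h1
      obtain ⟨x, hx, hzx⟩ := h1
      exact ⟨_, ⟨x, hx, rfl⟩, hzx⟩
  fg := by
    rintro _ ⟨U, hU, rfl⟩ ⟨z, hz⟩
    have hne : U.Nonempty := ⟨z.x, hz⟩
    have : CharZero F := charZero_of_injective_algebraMap (algebraMap k F).injective
    refine fg_of_eq (sec_U hX hU hne).symm ?_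
    refine icl_fg (adj F (X.sec U)) ?_ fun b => ?_
    · obtain ⟨S, hS⟩ := hX.fg U hU hne
      refine ⟨S, ?_⟩
      unfold adj
      apply le_antisymm
      · apply Algebra.adjoin_mono
        rw [← hS]
        exact Algebra.subset_adjoin
      · apply Algebra.adjoin_le
        intro a ha
        have h1 : a ∈ Algebra.adjoin k (S : Set K) := by rw [hS]; exact ha
        induction h1 using Algebra.adjoin_induction with
        | mem x hx => exact Algebra.subset_adjoin hx
        | algebraMap c => exact (Algebra.adjoin F (S : Set K)).algebraMap_mem (algebraMap k F c)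
        | add x y hx hy hx' hy' =>
          refine add_mem (hx' ?_) (hy' ?_)
          · rw [← hS]; exact hx
          · rw [← hS]; exact hy
        | mul x y hx hy hx' hy' =>
          refine mul_mem (hx' ?_) (hy' ?_)
          · rw [← hS]; exact hx
          · rw [← hS]; exact hy
    · obtain ⟨g, hg⟩ := hg
      have hgU := gen_mem hg U (hX.op U hU) hne
      obtain ⟨s, h1, h2, h3⟩ := hX.frac U g hU hgU b (by rw [hg.top]; exact Algebra.mem_top)
      exact ⟨s, le_adj h1, h2.1, le_adj h3⟩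
  frac := by
    rintro _ ⟨U, hU, rfl⟩ z hz b hb
    have hne : U.Nonempty := ⟨z.x, hz⟩
    obtain ⟨s, h1, h2, h3⟩ := (lo_U hX hU z hz).fr b hb
    have hle : BA F (X.sec U) ≤ (yP X F).sec {y | y.x ∈ U} := (sec_U hX hU hne).ge
    exact ⟨s, hle h1, h2, hle h3⟩
  prime := by
    rintro _ ⟨U, hU, rfl⟩ ⟨z, hz⟩ I hI
    have hne : U.Nonempty := ⟨z.x, hz⟩
    have hsec := sec_U (F := F) hX hU hne
    obtain ⟨I', hI', hII⟩ := ideal_of_eq hsec.symm I hI
    obtain ⟨y, hy, hyR⟩ := pt hX hU hne I' hI'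
    refine ⟨y, hy, fun a => ?_⟩
    have ha : (a : K) ∈ BA F (X.sec U) := hsec.le a.2
    have h2 := un_lo (hI := hI') (⟨a, ha⟩ : BA F (X.sec U))
    rw [← hyR] at h2
    refine (hII a ha).trans ?_
    change _ ↔ ¬ Un y.R (a : K)
    exact ⟨fun h3 h4 => h2.1 h4 h3, fun h3 => by
      by_contra h4
      exact h3 (h2.2 h4)⟩
  com := by
    rintro _ ⟨U, hU, rfl⟩ _ ⟨V, hV, rfl⟩ z hzU hzV
    obtain ⟨a, ha, hu, hs⟩ := hX.bas U V z.x hU (hX.op V hV) hzU hzV
    refine ⟨a, ?_, z.un hu, ?_⟩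
    · rw [Pre.mem_sec']
      intro w hw
      exact w.le (ha w.x hw)
    · rintro w ⟨hw, hw'⟩
      exact hs w.x hw (w.dom a (ha w.x hw) hw')
  cen := fun z p => y_cen hX z p

/-- **`Y` is a variety** -/
theorem isVar_y [CharZero k] (hX : IsVar X) [T0Space X.P] (hg : ∃ g, Gen X g) : IsVar (yM X F) :=
  Pre.isVar (ok_y hX hg)

/-- the map to `X` -/
def piY (y : (yM X F).P) : X.P := YP.x y

theorem pi_le (y : (yM X F).P) {a : K} (ha : a ∈ X.O (piY y)) : a ∈ (yM X F).O y := YP.le y ha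

theorem pi_un (y : (yM X F).P) {a : K} (ha : a ∈ X.O (piY y)) : Un ((yM X F).O y) a ↔ Un (X.O (piY y)) a :=
  ⟨fun h => YP.dom y a ha h, fun h => YP.un y h⟩

theorem pi_un' (y : (yM X F).P) {a : K} (ha : Un (X.O (piY y)) a) : Un ((yM X F).O y) a := YP.un y ha

/-- the local rings are integrally closed in `K` -/
theorem nor_y (y : (yM X F).P) {a : K} (ha : IsIntegral ((yM X F).O y) a) : a ∈ (yM X F).O y := YP.icl_le y ha

theorem sp_x [CharZero k] (hX : IsVar X) [T0Space X.P] (hg : ∃ g, Gen X g) {y w : (yM X F).P} (h : y ⤳ w) :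
    piY y ⤳ piY w := by
  have hsp := (Pre.sp_iff (ok_y (F := F) hX hg) y w).1 h
  rw [specializes_iff_forall_open]
  intro W hW hwW
  obtain ⟨U, hU, hwU⟩ := hX.chart (piY w)
  obtain ⟨a, ha, h3, h4⟩ := hX.bas U W (piY w) hU hW hwU hwW
  have h5 := hsp {y | y.x ∈ U} ⟨U, hU, rfl⟩ a (by
    rw [Pre.mem_sec']
    intro y hy
    exact y.le (ha y.x hy)) ⟨hwU, YP.un w h3⟩
  exact h4 _ h5.1 (YP.dom y a (ha _ h5.1) h5.2)

theorem aff_y {U : Set X.P} (hU : X.aff U) : (yM X F).aff (piY ⁻¹' U) :=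
  ⟨{y | y.x ∈ U}, ⟨U, hU, rfl⟩, 1, one_mem _, (Pre.D_one _).symm⟩

theorem pi_cont [CharZero k] (hX : IsVar X) [T0Space X.P] (hg : ∃ g, Gen X g) : Continuous (piY : (yM X F).P → X.P) := by
  rw [continuous_def]
  intro W hW
  rw [isOpen_iff_forall_mem_open]
  intro y hy
  obtain ⟨U, hU, hyU⟩ := hX.chart (piY y)
  obtain ⟨a, ha, h3, h4⟩ := hX.bas U W (piY y) hU hW hyU hy
  have h5 := hX.basic U a hU ha
  refine ⟨piY ⁻¹' {x | x ∈ U ∧ Un (X.O x) a}, ?_, (isVar_y (F := F) hX hg).op _ (aff_y h5), ⟨hyU, h3⟩⟩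
  rintro w ⟨hw1, hw2⟩
  exact h4 _ hw1 hw2

/-- the functions on the preimage of `U` -/
theorem sec_y (hX : IsVar X) {U : Set X.P} (hU : X.aff U) (hne : U.Nonempty) :
    (yM X F).sec (piY ⁻¹' U) = BA F (X.sec U) := sec_U hX hU hne

/-- the local rings over `U` are localizations of the ring of functions -/
theorem lo_y (hX : IsVar X) {U : Set X.P} (hU : X.aff U) (y : (yM X F).P) (hy : piY y ∈ U) :
    IsLo (BA F (X.sec U)) ((yM X F).O y) := lo_U hX hU y hy

/-- the prime ideals of the ring of functions are points -/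
theorem pt_y (hX : IsVar X) {U : Set X.P} (hU : X.aff U) (hne : U.Nonempty) (I : Ideal (BA F (X.sec U))) (hI : I.IsPrime) :
    ∃ y : (yM X F).P, piY y ∈ U ∧ (yM X F).O y = lo (BA F (X.sec U)) I hI := pt hX hU hne I hI

/-- a point is given by its image and its local ring -/
theorem y_ext {y w : (yM X F).P} (h1 : piY y = piY w) (h2 : (yM X F).O y = (yM X F).O w) : y = w := by
  obtain ⟨yx, yR, h3, h4⟩ := y
  obtain ⟨wx, wR, h5, h6⟩ := w
  change yx = wx at h1
  change yR = wR at h2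
  subst h1 h2
  rfl

/-- the generic point -/
theorem gen_y [CharZero k] (hX : IsVar X) [T0Space X.P] (hg : ∃ g, Gen X g) : ∃ y, Gen (yM X F) y := by
  have hg' := hg
  obtain ⟨g, hg⟩ := hg
  refine ⟨(yg hg : YP X F), rfl, fun w => ?_⟩
  refine (Pre.sp_iff (ok_y (F := F) hX hg') _ w).2 ?_
  rintro _ ⟨U, hU, rfl⟩ a ha ⟨h1, h2⟩
  exact ⟨gen_mem hg U (hX.op U hU) ⟨_, h1⟩, h2.1, Algebra.mem_top, Algebra.mem_top⟩

theorem t0_y [CharZero k] (hX : IsVar X) [T0Space X.P] (hg : ∃ g, Gen X g) : T0Space (yM X F).P := by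
  refine Pre.t0 (ok_y (F := F) hX hg) fun y w h1 h2 => ?_
  have h3 := sp_x hX hg ((Pre.sp_iff (ok_y (F := F) hX hg) y w).2 h1)
  have h4 := sp_x hX hg ((Pre.sp_iff (ok_y (F := F) hX hg) w y).2 h2)
  have hx : piY y = piY w := (Specializes.antisymm h3 h4).eq
  refine y_ext hx ?_
  have h5 := (isVar_y (F := F) hX hg).spec y w ((Pre.sp_iff (ok_y (F := F) hX hg) y w).2 h1)
  have h6 := (isVar_y (F := F) hX hg).spec w y ((Pre.sp_iff (ok_y (F := F) hX hg) w y).2 h2)
  exact le_antisymm h6 h5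

/-- **the pull-back of Cartier divisors** -/
noncomputable def psi [CharZero k] (hX : IsVar X) [T0Space X.P] (hg : ∃ g, Gen X g) : Cart X →* Cart (yM X F) where
  toFun D :=
    { eq := fun y => D.eq (piY y)
      ne := fun y => D.ne _
      loc := fun y => by
        obtain ⟨U, h1, h2, h3⟩ := D.loc (piY y)
        exact ⟨piY ⁻¹' U, h1.preimage (pi_cont hX hg), h2, fun w hw => pi_un' w (h3 _ hw)⟩ }
  map_one' := rfl
  map_mul' _ _ := rfl

theorem psi_eq [CharZero k] (hX : IsVar X) [T0Space X.P] (hg : ∃ g, Gen X g) (D : Cart X) (y : (yM X F).P) :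
    (psi hX hg D).eq y = D.eq (piY y) := rfl

theorem psi_sec [CharZero k] (hX : IsVar X) [T0Space X.P] (hg : ∃ g, Gen X g) {D : Cart X} {n : ℕ} {s : K}
    (hs : s ∈ secL D n) : s ∈ secL (psi (F := F) hX hg D) n := fun y => pi_le y (hs (piY y))

theorem psi_nz [CharZero k] (hX : IsVar X) [T0Space X.P] (hg : ∃ g, Gen X g) {D : Cart X} {n : ℕ} {s : K}
    (hs : Sec D n s) : nz (psi (F := F) hX hg D) n s = piY ⁻¹' (nz D n s) := by
  ext y
  exact pi_un y (hs (piY y))

theorem psi_ample [CharZero k] (hX : IsVar X) [T0Space X.P] (hg : ∃ g, Gen X g) {D : Cart X} (hD : Ample D) :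
    Ample (psi (F := F) hX hg D) := by
  intro y
  obtain ⟨n, hn, s, hs, hx, ha⟩ := hD (piY y)
  refine ⟨n, hn, s, fun w => pi_le w (hs (piY w)), ?_, ?_⟩
  · rw [psi_nz hX hg hs]
    exact hx
  · rw [psi_nz hX hg hs]
    exact aff_y ha

end Pool.Agent.H32.NY
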